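import Mathlib

/-!
# Three pairwise Leonard pairs need not form a Leonard triple

Over the rational numbers there are three `3 × 3` matrices any two of which form a Leonard pair but
which do not form a Leonard triple.
-/

namespace Pool.Agent.Results.MP_23ff89_al.PairwiseNotTriple

open Matrix

variable {K : Type} [Field K] {n : ℕ}

/-- Irreducible tridiagonal matrices. -/
def IrredTridiag (M : Matrix (Fin n) (Fin n) K) : Prop :=
  (∀ i j : Fin n, (i : ℕ) + 1 < j ∨ (j : ℕ) + 1 < i → M i j = 0) ∧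
  ∀ i j : Fin n, (i : ℕ) + 1 = j ∨ (j : ℕ) + 1 = i → M i j ≠ 0

/-- `A, B` is a Leonard pair on `K ^ n` (a basis of `K ^ n` is given by the columns of an invertible
matrix `P`). -/
def LeonardPair (A B : Matrix (Fin n) (Fin n) K) : Prop :=
  (∃ P : GL (Fin n) K, (∃ v, P⁻¹.val * A * P.val = diagonal v) ∧
    IrredTridiag (P⁻¹.val * B * P.val)) ∧
  ∃ P : GL (Fin n) K, (∃ v, P⁻¹.val * B * P.val = diagonal v) ∧
    IrredTridiag (P⁻¹.val * A * P.val)

/-- Some basis makes `A` diagonal and both `B`, `C` irreducible tridiagonal. -/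
def CommonBasis (A B C : Matrix (Fin n) (Fin n) K) : Prop :=
  ∃ P : GL (Fin n) K, (∃ v, P⁻¹.val * A * P.val = diagonal v) ∧
    IrredTridiag (P⁻¹.val * B * P.val) ∧ IrredTridiag (P⁻¹.val * C * P.val)

/-- `A, B, C` is a Leonard triple on `K ^ n`. -/
def LeonardTriple (A B C : Matrix (Fin n) (Fin n) K) : Prop :=
  CommonBasis A B C ∧ CommonBasis B C A ∧ CommonBasis C A B

/-- The three matrices. -/
def X : Matrix (Fin 3) (Fin 3) ℚ := !![2, 0, 0; 0, 0, 0; 0, 0, -2]
/-- The three matrices. -/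
def Y : Matrix (Fin 3) (Fin 3) ℚ := !![0, 2, 0; 1, 0, 1; 0, 2, 0]
/-- The three matrices. -/
def Z : Matrix (Fin 3) (Fin 3) ℚ := !![0, 0, 4; 0, 0, 2; -1, 4, -3]

/-- The bases. -/
def PX1 : Matrix (Fin 3) (Fin 3) ℚ := !![0, 0, 1; 1, 0, 0; 0, 1, 0]
/-- The inverse. -/
def QX1 : Matrix (Fin 3) (Fin 3) ℚ := !![0, 1, 0; 0, 0, 1; 1, 0, 0]
/-- The bases. -/
def PY : Matrix (Fin 3) (Fin 3) ℚ := !![1, 1, 1; -1, 0, 1; 1, -1, 1]
/-- The inverse. -/
def QY : Matrix (Fin 3) (Fin 3) ℚ := !![1/4, -1/2, 1/4; 1/2, 0, -1/2; 1/4, 1/2, 1/4]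
/-- The bases. -/
def PZ : Matrix (Fin 3) (Fin 3) ℚ := !![-2, -4, 4; -1, -1, 2; 2, 0, 1]
/-- The inverse. -/
def QZ : Matrix (Fin 3) (Fin 3) ℚ := !![1/10, -2/5, 2/5; -1/2, 1, 0; -1/5, 4/5, 1/5]

/-- An invertible matrix from a matrix and its inverse. -/
def mkGL (P Q : Matrix (Fin 3) (Fin 3) ℚ) (h : P * Q = 1) : GL (Fin 3) ℚ :=
  ⟨P, Q, h, mul_eq_one_comm.mp h⟩

lemma tri_of (M : Matrix (Fin 3) (Fin 3) ℚ) (h1 : M 0 2 = 0) (h2 : M 2 0 = 0) (h3 : M 0 1 ≠ 0)
    (h4 : M 1 0 ≠ 0) (h5 : M 1 2 ≠ 0) (h6 : M 2 1 ≠ 0) : IrredTridiag M := by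
  constructor
  · intro i j hij
    fin_cases i <;> fin_cases j <;> simp at hij ⊢ <;> assumption
  · intro i j hij
    fin_cases i <;> fin_cases j <;> simp at hij ⊢ <;> assumption

lemma eXY : (1 : Matrix (Fin 3) (Fin 3) ℚ) * X * 1 = diagonal ![2, 0, -2] := by
  ext i j; fin_cases i <;> fin_cases j <;> simp [X]

lemma hX1 : PX1 * QX1 = 1 := by
  ext i j
  fin_cases i <;> fin_cases j <;> simp [PX1, QX1, mul_apply, Fin.sum_univ_three]

lemma hY : PY * QY = 1 := by
  ext i j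
  fin_cases i <;> fin_cases j <;> simp [PY, QY, mul_apply, Fin.sum_univ_three] <;> norm_num

lemma hZ : PZ * QZ = 1 := by
  ext i j
  fin_cases i <;> fin_cases j <;> simp [PZ, QZ, mul_apply, Fin.sum_univ_three] <;> norm_num

lemma pairXY : LeonardPair X Y := by
  refine ⟨⟨1, ⟨![2, 0, -2], by simpa using eXY⟩, ?_⟩, ⟨mkGL PY QY hY, ⟨![-2, 0, 2], ?_⟩, ?_⟩⟩
  · have h : ((1 : GL (Fin 3) ℚ)⁻¹.val * Y * (1 : GL (Fin 3) ℚ).val) = Y := by simp
    rw [h]
    apply tri_of <;> simp [Y]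
  · show QY * Y * PY = _
    ext i j
    fin_cases i <;> fin_cases j <;> simp [PY, QY, Y, mul_apply, Fin.sum_univ_three] <;> norm_num
  · show IrredTridiag (QY * X * PY)
    apply tri_of <;> simp [PY, QY, X, mul_apply, Fin.sum_univ_three] <;> norm_num

lemma pairXZ : LeonardPair X Z := by
  refine ⟨⟨mkGL PX1 QX1 hX1, ⟨![0, -2, 2], ?_⟩, ?_⟩, ⟨mkGL PZ QZ hZ, ⟨![-4, 0, 1], ?_⟩, ?_⟩⟩
  · show QX1 * X * PX1 = _
    ext i j
    fin_cases i <;> fin_cases j <;> simp [PX1, QX1, X, mul_apply, Fin.sum_univ_three]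
  · show IrredTridiag (QX1 * Z * PX1)
    apply tri_of <;> simp [PX1, QX1, Z, mul_apply, Fin.sum_univ_three]
  · show QZ * Z * PZ = _
    ext i j
    fin_cases i <;> fin_cases j <;> simp [PZ, QZ, Z, mul_apply, Fin.sum_univ_three] <;> norm_num
  · show IrredTridiag (QZ * X * PZ)
    apply tri_of <;> simp [PZ, QZ, X, mul_apply, Fin.sum_univ_three] <;> norm_num

lemma pairYZ : LeonardPair Y Z := by
  refine ⟨⟨mkGL PY QY hY, ⟨![-2, 0, 2], ?_⟩, ?_⟩, ⟨mkGL PZ QZ hZ, ⟨![-4, 0, 1], ?_⟩, ?_⟩⟩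
  · show QY * Y * PY = _
    ext i j
    fin_cases i <;> fin_cases j <;> simp [PY, QY, Y, mul_apply, Fin.sum_univ_three] <;> norm_num
  · show IrredTridiag (QY * Z * PY)
    apply tri_of <;> simp [PY, QY, Z, mul_apply, Fin.sum_univ_three] <;> norm_num
  · show QZ * Z * PZ = _
    ext i j
    fin_cases i <;> fin_cases j <;> simp [PZ, QZ, Z, mul_apply, Fin.sum_univ_three] <;> norm_num
  · show IrredTridiag (QZ * Y * PZ)
    apply tri_of <;> simp [PZ, QZ, Y, mul_apply, Fin.sum_univ_three] <;> norm_num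

/-- No basis diagonalising `X` makes both `Y` and `Z` irreducible tridiagonal. -/
lemma not_common : ¬ CommonBasis X Y Z := by
  rintro ⟨P, ⟨v, hv⟩, hY, hZ⟩
  set p := P.val with hp
  set q := P⁻¹.val with hq
  have hpq : p * q = 1 := by rw [hp, hq]; exact P.mul_inv
  have hqp : q * p = 1 := by rw [hp, hq]; exact P.inv_mul
  have hpv : X * p = p * diagonal v := by
    rw [← hv, ← Matrix.mul_assoc, ← Matrix.mul_assoc, hpq, Matrix.one_mul]
  have hqv : q * X = diagonal v * q := by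
    rw [← hv, Matrix.mul_assoc (q * X) p q, hpq, Matrix.mul_one]
  have hX : X = diagonal ![2, 0, -2] := by
    ext i j; fin_cases i <;> fin_cases j <;> simp [X]
  have e1 : ∀ i j, p i j ≠ 0 → v j = ![2, 0, -2] i := by
    intro i j hij
    have := congrFun (congrFun hpv i) j
    rw [hX, diagonal_mul, mul_diagonal] at this
    have h2 : (v j - ![2, 0, -2] i) * p i j = 0 := by linarith
    rcases mul_eq_zero.mp h2 with h3 | h3
    · linarith
    · exact absurd h3 hij
  have e2 : ∀ i j, q j i ≠ 0 → v j = ![2, 0, -2] i := by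
    intro i j hij
    have := congrFun (congrFun hqv j) i
    rw [hX, diagonal_mul, mul_diagonal] at this
    have h2 : (v j - ![2, 0, -2] i) * q j i = 0 := by linarith
    rcases mul_eq_zero.mp h2 with h3 | h3
    · linarith
    · exact absurd h3 hij
  -- each row of `p` has a nonzero entry where the corresponding entry of `q` is nonzero too
  have e3 : ∀ i, ∃ j, p i j ≠ 0 ∧ q j i ≠ 0 := by
    intro i
    by_contra hcon
    push Not at hcon
    have h1 := congrFun (congrFun hpq i) i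
    rw [mul_apply, one_apply_eq] at h1
    have h2 : ∑ j, p i j * q j i = 0 := by
      apply Finset.sum_eq_zero
      intro j _
      by_cases h : p i j = 0
      · rw [h, zero_mul]
      · rw [hcon j h, mul_zero]
    rw [h2] at h1
    exact zero_ne_one h1
  choose s hs1 hs2 using e3
  have hvs : ∀ i, v (s i) = ![2, 0, -2] i := fun i => e1 i (s i) (hs1 i)
  have hx : Function.Injective (![2, 0, -2] : Fin 3 → ℚ) := by
    intro i j hij
    fin_cases i <;> fin_cases j <;> simp at hij ⊢ <;> norm_num at hij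
  have hsinj : Function.Injective s := by
    intro i j hij
    apply hx
    rw [← hvs i, ← hvs j, hij]
  have hbij : Function.Bijective s := Finite.injective_iff_bijective.mp hsinj
  have hzero : ∀ i j, j ≠ s i → p i j = 0 := by
    intro i j hj
    by_contra hne
    apply hj
    obtain ⟨i', rfl⟩ := hbij.2 j
    have h1 := e1 i (s i') hne
    rw [hvs i'] at h1
    rw [hx h1]
  have hzero' : ∀ i j, j ≠ s i → q j i = 0 := by
    intro i j hj
    by_contra hne
    apply hj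
    obtain ⟨i', rfl⟩ := hbij.2 j
    have h1 := e2 i (s i') hne
    rw [hvs i'] at h1
    rw [hx h1]
  have hentry : ∀ (W : Matrix (Fin 3) (Fin 3) ℚ) (i k : Fin 3),
      (q * W * p) (s i) (s k) = q (s i) i * W i k * p k (s k) := by
    intro W i k
    rw [mul_apply, Finset.sum_eq_single k]
    · rw [mul_apply, Finset.sum_eq_single i]
      · intro i' _ hi'
        rw [hzero' i' (s i) (fun h => hi' (hsinj h).symm), zero_mul]
      · simp
    · intro k' _ hk'
      rw [hzero k' (s k) (fun h => hk' (hsinj h).symm), mul_zero]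
    · simp
  have t1 : (q * Y * p) (s 0) (s 2) = 0 := by rw [hentry]; simp [Y]
  have t2 : (q * Z * p) (s 0) (s 1) = 0 := by rw [hentry]; simp [Z]
  have d01 : s 0 ≠ s 1 := fun h => by simpa using hsinj h
  have d02 : s 0 ≠ s 2 := fun h => by simpa using hsinj h
  have d12 : s 1 ≠ s 2 := fun h => by simpa using hsinj h
  have n1 : ¬ ((s 0 : ℕ) + 1 = s 2 ∨ (s 2 : ℕ) + 1 = s 0) := fun h => hY.2 _ _ h t1
  have n2 : ¬ ((s 0 : ℕ) + 1 = s 1 ∨ (s 1 : ℕ) + 1 = s 0) := fun h => hZ.2 _ _ h t2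
  have l0 := (s 0).isLt
  have l1 := (s 1).isLt
  have l2 := (s 2).isLt
  have d01' : (s 0 : ℕ) ≠ s 1 := fun h => d01 (Fin.ext h)
  have d02' : (s 0 : ℕ) ≠ s 2 := fun h => d02 (Fin.ext h)
  have d12' : (s 1 : ℕ) ≠ s 2 := fun h => d12 (Fin.ext h)
  omega

/-- **Pairwise Leonard pairs need not form a Leonard triple.** -/
theorem result : ¬ ∀ (K : Type) (_ : Field K) (n : ℕ) (A B C : Matrix (Fin n) (Fin n) K),
    0 < n → LeonardPair A B → LeonardPair A C → LeonardPair B C → LeonardTriple A B C := by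
  intro h
  exact not_common (h ℚ inferInstance 3 X Y Z (by norm_num) pairXY pairXZ pairYZ).1

end Pool.Agent.Results.MP_23ff89_al.PairwiseNotTriple
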